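import Pool.Agent.MP_db5b97_nt.H85.Spec

/-! The Herbrand quotient of a lattice. -/

namespace Pool.Agent.MP_db5b97_nt.H25

open H85 Polynomial

theorem poly_id {p : ℕ} (hp : p.Prime) :
    ∃ u : ℤ[X], ∑ i ∈ Finset.range p, (X + 1 : ℤ[X]) ^ i =
      (X : ℤ[X]) ^ (p - 1) + (p : ℤ[X]) + X * ((p : ℤ[X]) * u) := by
  obtain ⟨r, hr⟩ := exists_add_pow_prime_eq hp (X : ℤ[X]) 1
  have h1 : (∑ i ∈ Finset.range p, (X + 1 : ℤ[X]) ^ i) * X = (X + 1) ^ p - 1 := by
    have := geom_sum_mul (X + 1 : ℤ[X]) p
    rwa [add_sub_cancel_right] at this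
  have hX : (X : ℤ[X]) ^ p = X ^ (p - 1) * X := by
    rw [← pow_succ, Nat.sub_add_cancel hp.one_le]
  have h2 : ∑ i ∈ Finset.range p, (X + 1 : ℤ[X]) ^ i = (X : ℤ[X]) ^ (p - 1) + (p : ℤ[X]) * r := by
    apply mul_right_cancel₀ (X_ne_zero (R := ℤ))
    rw [h1, hr, hX]; ring
  have h3 : r.coeff 0 = 1 := by
    have h := congrArg (eval 0) h2
    have hp1 : p - 1 ≠ 0 := by have := hp.two_le; omega
    simp [eval_finsetSum, hp1] at h
    rw [coeff_zero_eq_eval_zero]
    have hp0 : (p : ℤ) ≠ 0 := by exact_mod_cast hp.ne_zero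
    apply mul_left_cancel₀ hp0
    simpa using h.symm
  refine ⟨r.divX, ?_⟩
  have h4 := X_mul_divX_add r
  rw [h3, C_1] at h4
  rw [h2]
  nth_rewrite 1 [← h4]
  ring

section

variable {R : Type} [CommRing R]

theorem idx_p (p : ℕ) (M : Type) [AddCommGroup M] [Module R M] [Module.Finite R M]
    [Module.Free R M] [Nontrivial R] (hp : Nat.card (R ⧸ Ideal.span {(p : R)}) = p) :
    (nsmulAddMonoidHom p : M →+ M).range.index = p ^ Module.finrank R M := by
  classical
  let b := Module.finBasis R M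
  let e : M ≃+ (Fin (Module.finrank R M) → R) := b.equivFun.toAddEquiv
  rw [← AddSubgroup.index_map_equiv _ e]
  have h : (nsmulAddMonoidHom p : M →+ M).range.map (e : M →+ (Fin (Module.finrank R M) → R)) =
      AddSubgroup.pi Set.univ fun _ => (Ideal.span {(p : R)}).toAddSubgroup := by
    ext v
    simp only [AddSubgroup.mem_map, AddMonoidHom.mem_range, nsmulAddMonoidHom_apply,
      AddSubgroup.mem_pi, Set.mem_univ, true_imp_iff, Submodule.mem_toAddSubgroup,
      Ideal.mem_span_singleton']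
    constructor
    · rintro ⟨_, ⟨x, rfl⟩, rfl⟩ i
      exact ⟨e x i, by simp [mul_comm]⟩
    · intro h
      choose a ha using h
      refine ⟨_, ⟨e.symm a, rfl⟩, ?_⟩
      funext i
      simp [← ha i, mul_comm]
  rw [h, AddSubgroup.index_pi]
  have h2 : (Ideal.span {(p : R)}).toAddSubgroup.index = p := hp
  simp [h2]

theorem idx_pow {M : Type} [AddCommGroup M] [Module R M] (φ : Module.End R M)
    (h : Function.Injective φ) (k : ℕ) :
    ((φ ^ k : Module.End R M).toAddMonoidHom).range.index = φ.toAddMonoidHom.range.index ^ k := by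
  induction k with
  | zero =>
    rw [pow_zero, pow_zero, AddSubgroup.index_eq_one, eq_top_iff]
    exact fun x _ => ⟨x, rfl⟩
  | succ k ih =>
    have e : ((φ ^ (k + 1) : Module.End R M).toAddMonoidHom).range =
        ((φ ^ k : Module.End R M).toAddMonoidHom).range.map φ.toAddMonoidHom := by
      ext x
      simp [pow_succ']
    rw [e, AddSubgroup.index_map_of_injective _ (f := φ.toAddMonoidHom) h, ih, pow_succ]

theorem range_eq {M : Type} [AddCommGroup M] [Module R M] {p : ℕ} (hp : p.Prime)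
    (φ : Module.End R M) (h : ∑ i ∈ Finset.range p, (φ + 1) ^ i = 0) :
    ((φ ^ (p - 1) : Module.End R M).toAddMonoidHom).range =
      (nsmulAddMonoidHom p : M →+ M).range := by
  obtain ⟨u, hu⟩ := poly_id hp
  have h1 := congrArg (aeval (R := ℤ) φ) hu
  simp only [map_sum, map_pow, map_add, aeval_X, map_one, map_natCast, map_mul, h] at h1
  set w : Module.End R M := aeval (R := ℤ) φ u
  have h2 : ∀ x, (φ ^ (p - 1)) x + p • x + φ (p • w x) = 0 := fun x => by
    have := congrArg (fun t : Module.End R M => t x) h1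
    simpa using this.symm
  apply le_antisymm
  · rintro _ ⟨x, rfl⟩
    refine ⟨-(x + φ (w x)), ?_⟩
    have := h2 x
    rw [map_nsmul] at this
    simp only [nsmulAddMonoidHom_apply, LinearMap.toAddMonoidHom_coe, smul_neg, smul_add]
    rw [neg_eq_iff_add_eq_zero, ← this]; abel
  · rintro _ ⟨x, rfl⟩
    have key : ∀ j : ℕ, ∃ y z, p • x = (φ ^ (p - 1)) y + (φ ^ j) (p • z) := by
      intro j
      induction j with
      | zero => exact ⟨0, x, by simp⟩
      | succ j ih =>
        obtain ⟨y, z, hz⟩ := ih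
        refine ⟨y - (φ ^ j) z, -w z, ?_⟩
        have h3 : p • z = -((φ ^ (p - 1)) z + φ (p • w z)) := by
          rw [eq_neg_iff_add_eq_zero, ← h2 z]; abel
        have h4 : (φ ^ j) ((φ ^ (p - 1)) z) = (φ ^ (p - 1)) ((φ ^ j) z) := by
          rw [← Module.End.mul_apply, ← Module.End.mul_apply, pow_mul_comm]
        rw [hz, h3, map_neg, map_add, h4, map_sub, pow_succ, Module.End.mul_apply, smul_neg,
          map_neg, map_neg]
        abel
    obtain ⟨y, z, hz⟩ := key (p - 1)
    exact ⟨y + p • z, by simp [hz]⟩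

end

theorem rel_res {A : Type} [AddCommGroup A] (S : AddSubgroup A) (φ : A →+ A) (ψ : S →+ S)
    (h : ∀ x, (ψ x : A) = φ x) : (S.map φ).relIndex S = ψ.range.index := by
  have : (S.map φ).addSubgroupOf S = ψ.range := by
    ext x
    simp only [AddSubgroup.mem_addSubgroupOf, AddSubgroup.mem_map, AddMonoidHom.mem_range]
    constructor
    · rintro ⟨y, hy, e⟩
      exact ⟨⟨y, hy⟩, Subtype.ext (by rw [h, ← e])⟩
    · rintro ⟨y, rfl⟩
      exact ⟨y, y.2, (h y).symm⟩
  rw [AddSubgroup.relIndex, this]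

theorem rel_range {A : Type} [AddCommGroup A] (S : AddSubgroup A) (φ : A →+ A) :
    (S.map φ).relIndex φ.range = (S ⊔ φ.ker).index := by
  rw [AddMonoidHom.range_eq_map, AddSubgroup.relIndex_map_map, top_sup_eq,
    AddSubgroup.relIndex_top_right]

theorem rowHQ : RowHQ := by
  intro p hp R A G _ _ _ _ _ _ _ _ _ _ _ σ F hR hσ hF
  let s : Module.End R A := DistribSMul.toLinearMap R A σ
  have hs : ∀ (i : ℕ) (x : A), (s ^ i) x = σ ^ i • x := by
    intro i x
    induction i with
    | zero => simp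
    | succ i ih => rw [pow_succ', Module.End.mul_apply, ih, pow_succ', mul_smul]; rfl
  let g : Module.End R A := ∑ i ∈ Finset.range p, s ^ i
  let f : Module.End R A := s - 1
  have hg : ∀ x, Nm σ p x = g x := fun x => by
    rw [Nm_apply]; simp [g, LinearMap.sum_apply, hs]
  have hf : ∀ x, Df σ x = f x := fun x => rfl
  have hsp : s ^ p = 1 := LinearMap.ext fun x => by rw [hs, hσ]; rfl
  have hfg : ∀ x, f (g x) = 0 := fun x => by
    have := mul_geom_sum s p
    rw [hsp, sub_self] at this
    exact congrArg (fun t : Module.End R A => t x) this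
  have hgf : ∀ x, g (f x) = 0 := fun x => by
    have := geom_sum_mul s p
    rw [hsp, sub_self] at this
    exact congrArg (fun t : Module.End R A => t x) this
  have hFf : ∀ x, x ∈ F ↔ f x = 0 := fun x => by
    rw [hF, ← hf, Df_apply, sub_eq_zero]
  have hgF : ∀ x ∈ F, g x = p • x := fun x hx => by
    have h1 : ∀ i : ℕ, σ ^ i • x = x := fun i => by
      induction i with
      | zero => simp
      | succ i ih => rw [pow_succ, mul_smul, (hF x).1 hx, ih]
    rw [← hg, Nm_apply]; simp [h1]
  have htf : ∀ x : A, p • x = 0 → x = 0 := fun x hx => by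
    rw [← Nat.cast_smul_eq_nsmul R] at hx
    exact (smul_eq_zero.1 hx).resolve_left (by exact_mod_cast hp.ne_zero)
  let K : Submodule R A := LinearMap.ker g
  have eF : (Df σ : A →+ A).ker = F.toAddSubgroup := by
    ext x; rw [AddMonoidHom.mem_ker, hf, ← hFf]; rfl
  have eK : (Nm σ p : A →+ A).ker = K.toAddSubgroup := by
    ext x; rw [AddMonoidHom.mem_ker, hg]; rfl
  set m := (F.toAddSubgroup ⊔ K.toAddSubgroup).index with hm
  have h0 : m * hc (A := A) (Df σ) (Nm σ p) = p ^ Module.finrank R F := by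
    rw [← idx_p p F hR, ← rel_res F.toAddSubgroup (Nm σ p) (nsmulAddMonoidHom p)
      (fun x => by rw [hg, hgF x x.2]; rfl), hc, eF, hm, ← eK, ← rel_range]
    refine AddSubgroup.relIndex_mul_relIndex _ _ _ (AddSubgroup.map_le_range _ _) ?_
    rintro _ ⟨x, rfl⟩
    rw [hg]
    exact (hFf _).2 (hfg x)
  let φ : Module.End R K := f.restrict (p := K) (q := K) fun x _ => hgf x
  have hφ : Function.Injective φ := by
    rw [injective_iff_map_eq_zero]
    intro x hx
    have h1 : (x : A) ∈ F := (hFf _).2 (congrArg Subtype.val hx)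
    exact Subtype.ext (htf _ (by rw [← hgF _ h1]; exact x.2))
  have hφs : ∀ (i : ℕ) (x : K), (((φ + 1) ^ i) x : A) = (s ^ i) x := by
    intro i x
    induction i with
    | zero => simp
    | succ i ih =>
      rw [pow_succ', Module.End.mul_apply, pow_succ', Module.End.mul_apply, ← ih]
      simp [φ, f]
  have hφ0 : ∑ i ∈ Finset.range p, (φ + 1) ^ i = 0 := by
    ext x
    have : (∑ i ∈ Finset.range p, s ^ i) (x : A) = 0 := x.2
    rw [LinearMap.sum_apply] at this
    simp [LinearMap.sum_apply, hφs, this]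
  have h1 : m * hc (A := A) (Nm σ p) (Df σ) = φ.toAddMonoidHom.range.index := by
    rw [← rel_res K.toAddSubgroup (Df σ) φ.toAddMonoidHom (fun x => rfl), hc, eK, hm, sup_comm,
      ← eF, ← rel_range]
    refine AddSubgroup.relIndex_mul_relIndex _ _ _ (AddSubgroup.map_le_range _ _) ?_
    rintro _ ⟨x, rfl⟩
    exact hgf x
  have h2 : φ.toAddMonoidHom.range.index ^ (p - 1) = p ^ Module.finrank R K := by
    rw [← idx_pow φ hφ, range_eq hp φ hφ0, idx_p p K hR]
  have h3 : Module.finrank R A = Module.finrank R F + Module.finrank R K := by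
    have a1 := Submodule.finrank_quotient_add_finrank K
    rw [g.quotKerEquivRange.finrank_eq] at a1
    have a2 : Module.finrank R (LinearMap.range g) ≤ Module.finrank R F :=
      Submodule.finrank_mono (by rintro _ ⟨x, rfl⟩; exact (hFf _).2 (hfg x))
    have a3 : Module.finrank R F ≤ Module.finrank R (LinearMap.range g) := by
      refine LinearMap.finrank_le_finrank_of_injective (f := g.rangeRestrict ∘ₗ F.subtype) ?_
      rw [injective_iff_map_eq_zero]
      intro x hx
      have : g x = 0 := congrArg Subtype.val hx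
      exact Subtype.ext (htf _ (by rw [← hgF _ x.2, this]))
    omega
  have hp0 := hp.ne_zero
  have hp1 : p - 1 ≠ 0 := by have := hp.two_le; omega
  have n0 : m * hc (A := A) (Df σ) (Nm σ p) ≠ 0 := by rw [h0]; positivity
  have n1 : m * hc (A := A) (Nm σ p) (Df σ) ≠ 0 := by
    intro h
    rw [← h1, h, zero_pow hp1] at h2
    exact pow_ne_zero _ hp0 h2.symm
  refine ⟨right_ne_zero_of_mul n0, right_ne_zero_of_mul n1, ?_⟩
  apply mul_left_cancel₀ (pow_ne_zero (p - 1) (left_ne_zero_of_mul n0))
  rw [← mul_assoc, ← mul_assoc, ← mul_pow, ← mul_pow, h0, h1, h2, h3, ← pow_mul, ← pow_add,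
    ← pow_add]
  congr 1
  obtain ⟨q, rfl⟩ : ∃ q, p = q + 1 := ⟨p - 1, by omega⟩
  simp only [Nat.add_sub_cancel]
  ring

end Pool.Agent.MP_db5b97_nt.H25
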